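import Mathlib

/-!
# A Banach space with an extended M-basis containing `ℓ^∞`
-/

namespace Pool.Agent.Results.MP_810de6_an.ContainsLinfty

open Filter Topology

/-- An extended biorthogonal system `(x i, f i)` indexed by an arbitrary type `ι`, with total
functionals and dense linear span: an extended M-basis. -/
structure ExtendedMBasis (𝕜 : Type*) [RCLike 𝕜] (E : Type*) [NormedAddCommGroup E]
    [NormedSpace 𝕜 E] (ι : Type*) where
  x : ι → E
  f : ι → E →L[𝕜] 𝕜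
  biorth_self : ∀ i, f i (x i) = 1
  biorth_ne : ∀ i j, i ≠ j → f i (x j) = 0
  total : ∀ z : E, (∀ i, f i z = 0) → z = 0
  fundamental : (Submodule.span 𝕜 (Set.range x)).topologicalClosure = ⊤

variable (𝕜 : Type) [RCLike 𝕜]

/-- `ℓ^∞` -/
abbrev Linf : Type := lp (fun _ : ℕ => 𝕜) ⊤

/-- the closed unit ball of `ℓ^∞` -/
abbrev Ball : Type := {a : Linf 𝕜 // ‖a‖ ≤ 1}

/-- `ℓ^1(Ball × ℕ)` -/
abbrev L1 : Type := lp (fun _ : Ball 𝕜 × ℕ => 𝕜) 1

variable {𝕜}

theorem summable_norm (y : L1 𝕜) : Summable fun γ => ‖y γ‖ := by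
  have := lp.hasSum_norm (p := 1) (by simp) y
  simpa using this.summable

theorem tsum_norm (y : L1 𝕜) : ∑' γ, ‖y γ‖ = ‖y‖ := by
  have := (lp.hasSum_norm (p := 1) (by simp) y).tsum_eq
  simpa using this

/-- the functional on `ℓ^1` given by a bounded function -/
noncomputable def functional (φ : Ball 𝕜 × ℕ → 𝕜) (C : ℝ) (hφ : ∀ γ, ‖φ γ‖ ≤ C) :
    L1 𝕜 →L[𝕜] 𝕜 :=
  LinearMap.mkContinuous
    { toFun := fun y => ∑' γ, φ γ * y γ
      map_add' := by
        intro y z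
        have hs : ∀ w : L1 𝕜, Summable fun γ => φ γ * w γ := by
          intro w
          refine Summable.of_norm_bounded ((summable_norm w).mul_left C) fun γ => ?_
          rw [norm_mul]
          exact mul_le_mul_of_nonneg_right (hφ γ) (norm_nonneg _)
        rw [← (hs y).tsum_add (hs z)]
        refine tsum_congr fun γ => ?_
        rw [lp.coeFn_add, Pi.add_apply, mul_add]
      map_smul' := by
        intro a y
        rw [RingHom.id_apply, smul_eq_mul, ← tsum_mul_left]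
        refine tsum_congr fun γ => ?_
        rw [lp.coeFn_smul, Pi.smul_apply, smul_eq_mul]
        ring } C
    (by
      intro y
      have hs : Summable fun γ => ‖φ γ * y γ‖ := by
        refine Summable.of_nonneg_of_le (fun _ => norm_nonneg _) (fun γ => ?_)
          ((summable_norm y).mul_left C)
        rw [norm_mul]
        exact mul_le_mul_of_nonneg_right (hφ γ) (norm_nonneg _)
      show ‖∑' γ, φ γ * y γ‖ ≤ C * ‖y‖
      refine (norm_tsum_le_tsum_norm hs).trans ?_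
      rw [← tsum_norm y, ← tsum_mul_left]
      refine hs.tsum_le_tsum (fun γ => ?_) ((summable_norm y).mul_left C)
      rw [norm_mul]
      exact mul_le_mul_of_nonneg_right (hφ γ) (norm_nonneg _))

theorem functional_apply (φ : Ball 𝕜 × ℕ → 𝕜) (C : ℝ) (hφ : ∀ γ, ‖φ γ‖ ≤ C) (y : L1 𝕜) :
    functional φ C hφ y = ∑' γ, φ γ * y γ := rfl

open Classical in
theorem functional_single (φ : Ball 𝕜 × ℕ → 𝕜) (C : ℝ) (hφ : ∀ γ, ‖φ γ‖ ≤ C)
    (γ : Ball 𝕜 × ℕ) (a : 𝕜) :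
    functional φ C hφ (lp.single 1 γ a) = φ γ * a := by
  rw [functional_apply, tsum_eq_single γ]
  · rw [lp.single_apply_self]
  · intro δ hδ
    rw [lp.single_apply_ne _ _ _ hδ, mul_zero]

/-- coordinate functional on `ℓ^∞` -/
noncomputable def coordInf (k : ℕ) : Linf 𝕜 →L[𝕜] 𝕜 :=
  LinearMap.mkContinuous
    { toFun := fun a => a k
      map_add' := fun _ _ => rfl
      map_smul' := fun _ _ => rfl } 1
    (fun a => by rw [one_mul]; exact lp.norm_apply_le_norm (by simp) a k)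

theorem coordInf_apply (k : ℕ) (a : Linf 𝕜) : (coordInf (𝕜 := 𝕜) k) a = a k := rfl

/-- the weights `φ_k` -/
noncomputable def phi (k : ℕ) (γ : Ball 𝕜 × ℕ) : 𝕜 :=
  if γ.2 ≤ k then -((γ.2 : 𝕜) + 1) * (γ.1 : Linf 𝕜) k else 0

theorem norm_phi_le (k : ℕ) (γ : Ball 𝕜 × ℕ) : ‖phi k γ‖ ≤ k + 1 := by
  unfold phi
  split_ifs with h
  · rw [norm_mul, norm_neg]
    have h1 : ‖((γ.2 : 𝕜) + 1)‖ ≤ k + 1 := by
      have : ((γ.2 : 𝕜) + 1) = (((γ.2 + 1 : ℕ)) : 𝕜) := by push_cast; rfl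
      rw [this, RCLike.norm_natCast]
      push_cast
      have : (γ.2 : ℝ) ≤ k := by exact_mod_cast h
      linarith
    have h2 : ‖(γ.1 : Linf 𝕜) k‖ ≤ 1 :=
      (lp.norm_apply_le_norm (by simp) (γ.1 : Linf 𝕜) k).trans γ.1.2
    calc ‖((γ.2 : 𝕜) + 1)‖ * ‖(γ.1 : Linf 𝕜) k‖ ≤ (k + 1) * 1 :=
          mul_le_mul h1 h2 (norm_nonneg _) (by positivity)
      _ = k + 1 := mul_one _
  · rw [norm_zero]; positivity

/-- head of a sequence: `∑_{k<n} a_k e_k` -/
noncomputable def head (n : ℕ) (a : Linf 𝕜) : Linf 𝕜 :=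
  ∑ k ∈ Finset.range n, a k • lp.single ⊤ k (1 : 𝕜)

theorem head_apply (n : ℕ) (a : Linf 𝕜) (k : ℕ) : head n a k = if k < n then a k else 0 := by
  have : head n a k = (coordInf (𝕜 := 𝕜) k) (head n a) := rfl
  rw [this]
  unfold head
  rw [map_sum]
  simp only [map_smul, coordInf_apply, smul_eq_mul]
  have h2 : ∀ m, (lp.single ⊤ m (1 : 𝕜) : Linf 𝕜) k = if k = m then 1 else 0 := by
    intro m
    split_ifs with h
    · subst h; exact lp.single_apply_self _ _ _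
    · exact lp.single_apply_ne _ _ _ h
  simp only [h2, mul_ite, mul_one, mul_zero]
  rw [Finset.sum_ite_eq]
  simp only [Finset.mem_range]

open Classical in
/-- the vectors -/
noncomputable def vec : ℕ ⊕ (Ball 𝕜 × ℕ) → Linf 𝕜 × L1 𝕜
  | Sum.inl k => (lp.single ⊤ k 1, 0)
  | Sum.inr γ => ((γ.1 : Linf 𝕜) - head γ.2 γ.1, lp.single 1 γ (((γ.2 : 𝕜) + 1)⁻¹))

open Classical in
/-- the functionals -/
noncomputable def fn : ℕ ⊕ (Ball 𝕜 × ℕ) → (Linf 𝕜 × L1 𝕜) →L[𝕜] 𝕜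
  | Sum.inl k => (coordInf k).comp (ContinuousLinearMap.fst 𝕜 _ _) +
      (functional (phi k) (k + 1) (norm_phi_le k)).comp (ContinuousLinearMap.snd 𝕜 _ _)
  | Sum.inr γ => (functional (fun δ => if δ = γ then ((γ.2 : 𝕜) + 1) else 0) ‖((γ.2 : 𝕜) + 1)‖
      (fun δ => by split_ifs <;> simp)).comp (ContinuousLinearMap.snd 𝕜 _ _)

theorem fn_inl (k : ℕ) (z : Linf 𝕜 × L1 𝕜) :
    fn (Sum.inl k) z = z.1 k + functional (phi k) (k + 1) (norm_phi_le k) z.2 := rfl

open Classical in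
theorem fn_inr (γ : Ball 𝕜 × ℕ) (z : Linf 𝕜 × L1 𝕜) :
    fn (Sum.inr γ) z = ((γ.2 : 𝕜) + 1) * z.2 γ := by
  show ∑' δ, (if δ = γ then ((γ.2 : 𝕜) + 1) else 0) * z.2 δ = _
  rw [tsum_eq_single γ]
  · rw [if_pos rfl]
  · intro δ hδ
    rw [if_neg hδ, zero_mul]

theorem ne0 (n : ℕ) : ((n : 𝕜) + 1) ≠ 0 := Nat.cast_add_one_ne_zero n

theorem span_eq_top : (Submodule.span 𝕜 (Set.range (vec (𝕜 := 𝕜)))).topologicalClosure = ⊤ := by
  classical
  set S := (Submodule.span 𝕜 (Set.range (vec (𝕜 := 𝕜)))).topologicalClosure with hS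
  have hcl : IsClosed (S : Set (Linf 𝕜 × L1 𝕜)) := Submodule.isClosed_topologicalClosure _
  have hvec : ∀ i, vec i ∈ S := fun i =>
    Submodule.le_topologicalClosure _ (Submodule.subset_span ⟨i, rfl⟩)
  have h1 : ∀ k, ((lp.single ⊤ k (1 : 𝕜) : Linf 𝕜), (0 : L1 𝕜)) ∈ S := fun k => hvec (Sum.inl k)
  have h2 : ∀ (n : ℕ) (a : Linf 𝕜), (head n a, (0 : L1 𝕜)) ∈ S := by
    intro n a
    have : (head n a, (0 : L1 𝕜)) =
        ∑ k ∈ Finset.range n, a k • ((lp.single ⊤ k (1 : 𝕜) : Linf 𝕜), (0 : L1 𝕜)) := by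
      unfold head
      ext1
      · simp [Prod.fst_sum]
      · simp [Prod.snd_sum]
    rw [this]
    exact Submodule.sum_mem _ fun k _ => Submodule.smul_mem _ _ (h1 k)
  have h3 : ∀ γ : Ball 𝕜 × ℕ,
      ((γ.1 : Linf 𝕜), (lp.single 1 γ (((γ.2 : 𝕜) + 1)⁻¹) : L1 𝕜)) ∈ S := by
    intro γ
    have := Submodule.add_mem _ (hvec (Sum.inr γ)) (h2 γ.2 (γ.1 : Linf 𝕜))
    have e : vec (Sum.inr γ) + (head γ.2 (γ.1 : Linf 𝕜), (0 : L1 𝕜)) =
        ((γ.1 : Linf 𝕜), (lp.single 1 γ (((γ.2 : 𝕜) + 1)⁻¹) : L1 𝕜)) := by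
      unfold vec
      ext1
      · simp
      · simp
    rwa [e] at this
  have h4 : ∀ a : Ball 𝕜, ((a : Linf 𝕜), (0 : L1 𝕜)) ∈ S := by
    intro a
    have ht : Tendsto (fun n : ℕ =>
        ((a : Linf 𝕜), (lp.single 1 (a, n) (((n : 𝕜) + 1)⁻¹) : L1 𝕜))) atTop
        (𝓝 ((a : Linf 𝕜), (0 : L1 𝕜))) := by
      refine tendsto_const_nhds.prodMk_nhds ?_
      rw [tendsto_zero_iff_norm_tendsto_zero]
      have : ∀ n : ℕ, ‖(lp.single 1 (a, n) (((n : 𝕜) + 1)⁻¹) : L1 𝕜)‖ = 1 / ((n : ℝ) + 1) := by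
        intro n
        rw [lp.norm_single (by norm_num), norm_inv, one_div]
        congr 1
        have : ((n : 𝕜) + 1) = (((n + 1 : ℕ)) : 𝕜) := by push_cast; rfl
        rw [this, RCLike.norm_natCast]
        push_cast
        rfl
      simp only [this]
      exact tendsto_one_div_add_atTop_nhds_zero_nat
    exact hcl.mem_of_tendsto ht (Eventually.of_forall fun n => h3 (a, n))
  have h5 : ∀ a : Linf 𝕜, (a, (0 : L1 𝕜)) ∈ S := by
    intro a
    by_cases ha : a = 0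
    · rw [ha]; exact S.zero_mem
    · have hn : ‖a‖ ≠ 0 := norm_ne_zero_iff.2 ha
      have hb : ‖((‖a‖⁻¹ : ℝ) : 𝕜) • a‖ ≤ 1 := by
        rw [norm_smul, RCLike.norm_ofReal, abs_of_nonneg (by positivity), inv_mul_cancel₀ hn]
      have := Submodule.smul_mem S ((‖a‖ : ℝ) : 𝕜) (h4 ⟨((‖a‖⁻¹ : ℝ) : 𝕜) • a, hb⟩)
      have e : ((‖a‖ : ℝ) : 𝕜) • ((((‖a‖⁻¹ : ℝ) : 𝕜) • a : Linf 𝕜), (0 : L1 𝕜)) = (a, 0) := by
        rw [Prod.smul_mk, smul_zero, smul_smul, ← RCLike.ofReal_mul, mul_inv_cancel₀ hn,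
          RCLike.ofReal_one, one_smul]
      rwa [e] at this
  have h6 : ∀ γ : Ball 𝕜 × ℕ, ((0 : Linf 𝕜), (lp.single 1 γ (1 : 𝕜) : L1 𝕜)) ∈ S := by
    intro γ
    have := Submodule.smul_mem S ((γ.2 : 𝕜) + 1)
      (Submodule.sub_mem _ (h3 γ) (h5 (γ.1 : Linf 𝕜)))
    have e : ((γ.2 : 𝕜) + 1) • (((γ.1 : Linf 𝕜),
        (lp.single 1 γ (((γ.2 : 𝕜) + 1)⁻¹) : L1 𝕜)) - ((γ.1 : Linf 𝕜), (0 : L1 𝕜))) =
        ((0 : Linf 𝕜), (lp.single 1 γ (1 : 𝕜) : L1 𝕜)) := by
      rw [Prod.mk_sub_mk, sub_self, sub_zero, Prod.smul_mk, smul_zero, ← lp.single_smul,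
        smul_eq_mul, mul_inv_cancel₀ (ne0 γ.2)]
    rwa [e] at this
  have h7 : ∀ y : L1 𝕜, ((0 : Linf 𝕜), y) ∈ S := by
    intro y
    have hs := lp.hasSum_single (p := 1) (by simp) y
    have hs2 : HasSum (fun γ => ((0 : Linf 𝕜), (lp.single 1 γ (y γ) : L1 𝕜)))
        ((0 : Linf 𝕜), y) := by
      have := hs.map (AddMonoidHom.inr (Linf 𝕜) (L1 𝕜)) (by
        exact continuous_const.prodMk continuous_id)
      exact this
    refine hcl.mem_of_tendsto hs2 (Eventually.of_forall fun s => ?_)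
    refine Submodule.sum_mem _ fun γ _ => ?_
    have := Submodule.smul_mem S (y γ) (h6 γ)
    have e : y γ • ((0 : Linf 𝕜), (lp.single 1 γ (1 : 𝕜) : L1 𝕜)) =
        ((0 : Linf 𝕜), (lp.single 1 γ (y γ) : L1 𝕜)) := by
      rw [Prod.smul_mk, smul_zero, ← lp.single_smul, smul_eq_mul, mul_one]
    rwa [e] at this
  rw [Submodule.eq_top_iff']
  rintro ⟨a, y⟩
  have := Submodule.add_mem _ (h5 a) (h7 y)
  simpa using this

/-- the extended M-basis of `ℓ^∞ × ℓ^1(Ball × ℕ)` -/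
noncomputable def mbasis : ExtendedMBasis 𝕜 (Linf 𝕜 × L1 𝕜) (ℕ ⊕ (Ball 𝕜 × ℕ)) where
  x := vec
  f := fn
  biorth_self := by
    classical
    rintro (k | γ)
    · rw [fn_inl]
      show (lp.single ⊤ k (1 : 𝕜) : Linf 𝕜) k + functional (phi k) (k + 1) (norm_phi_le k) 0 = 1
      rw [map_zero, add_zero, lp.single_apply_self]
    · rw [fn_inr]
      show ((γ.2 : 𝕜) + 1) * (lp.single 1 γ (((γ.2 : 𝕜) + 1)⁻¹) : L1 𝕜) γ = 1
      rw [lp.single_apply_self, mul_inv_cancel₀ (ne0 γ.2)]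
  biorth_ne := by
    classical
    rintro (k | γ) (m | δ) hne
    · rw [fn_inl]
      show (lp.single ⊤ m (1 : 𝕜) : Linf 𝕜) k + functional (phi k) (k + 1) (norm_phi_le k) 0 = 0
      rw [map_zero, add_zero, lp.single_apply_ne]
      rintro rfl
      exact hne rfl
    · rw [fn_inl]
      show ((δ.1 : Linf 𝕜) - head δ.2 δ.1 : Linf 𝕜) k + functional (phi k) (k + 1)
        (norm_phi_le k) (lp.single 1 δ (((δ.2 : 𝕜) + 1)⁻¹)) = 0
      rw [functional_single, lp.coeFn_sub, Pi.sub_apply, head_apply]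
      unfold phi
      by_cases h : k < δ.2
      · rw [if_pos h, if_neg (not_le.2 h)]
        ring
      · rw [if_neg h, if_pos (not_lt.1 h)]
        have := ne0 (𝕜 := 𝕜) δ.2
        field_simp
        ring
    · rw [fn_inr]
      show ((γ.2 : 𝕜) + 1) * (0 : L1 𝕜) γ = 0
      simp
    · rw [fn_inr]
      show ((γ.2 : 𝕜) + 1) * (lp.single 1 δ (((δ.2 : 𝕜) + 1)⁻¹) : L1 𝕜) γ = 0
      rw [lp.single_apply_ne, mul_zero]
      rintro rfl
      exact hne rfl
  total := by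
    rintro ⟨a, y⟩ h
    have hy : y = 0 := by
      ext γ
      have := h (Sum.inr γ)
      rw [fn_inr] at this
      exact (mul_eq_zero.1 this).resolve_left (ne0 γ.2)
    subst hy
    have ha : a = 0 := by
      ext k
      have := h (Sum.inl k)
      rw [fn_inl, map_zero, add_zero] at this
      exact this
    rw [ha]
    rfl
  fundamental := span_eq_top

/-- Over `ℝ` and over `ℂ` there is a Banach space with an extended M-basis that has a closed
subspace linearly homeomorphic to `ℓ^∞`. -/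
theorem result (𝕜 : Type) [RCLike 𝕜] :
    ∃ (E : Type) (_ : NormedAddCommGroup E) (_ : NormedSpace 𝕜 E) (_ : CompleteSpace E)
      (ι : Type) (_ : ExtendedMBasis 𝕜 E ι) (G : Submodule 𝕜 E),
      IsClosed (G : Set E) ∧ Nonempty (lp (fun _ : ℕ => 𝕜) ⊤ ≃L[𝕜] G) := by
  refine ⟨Linf 𝕜 × L1 𝕜, inferInstance, inferInstance, inferInstance, _, mbasis,
    LinearMap.range (LinearMap.inl 𝕜 (Linf 𝕜) (L1 𝕜)), ?_, ?_⟩
  · have : ((LinearMap.range (LinearMap.inl 𝕜 (Linf 𝕜) (L1 𝕜)) : Submodule 𝕜 _) :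
        Set (Linf 𝕜 × L1 𝕜)) = {z | z.2 = 0} := by
      ext z
      simp only [LinearMap.coe_range, Set.mem_range, LinearMap.coe_inl, Set.mem_ofPred_eq]
      constructor
      · rintro ⟨a, rfl⟩; rfl
      · intro h; exact ⟨z.1, Prod.ext rfl h.symm⟩
    rw [this]
    exact isClosed_eq continuous_snd continuous_const
  · refine ⟨{ toFun := fun a => ⟨(a, 0), ⟨a, rfl⟩⟩
              invFun := fun z => z.1.1
              map_add' := ?_
              map_smul' := ?_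
              left_inv := ?_
              right_inv := ?_
              continuous_toFun := ?_
              continuous_invFun := ?_ }⟩
    · intro a b; ext1; simp
    · intro c a; ext1; simp
    · intro a; rfl
    · rintro ⟨z, a, rfl⟩; rfl
    · exact (continuous_id.prodMk continuous_const).subtype_mk _
    · exact continuous_fst.comp continuous_subtype_val

end Pool.Agent.Results.MP_810de6_an.ContainsLinfty
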